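import Pool.Agent.Lib.MP_6b2d39_agWin.Strong

/-!
The Harbourne-Hirschowitz conjecture for linear systems of plane curves with general base points.

`curves d m P` is the space of homogeneous polynomials of degree `d` in three variables with
multiplicity at least `m i` at the base point `P i` (a vector of `ℂ ^ 3`), `vd d m` its virtual
dimension `(d + 2).choose 2 - ∑ (m i + 1).choose 2`, `IsSpecial` means that the dimension is larger
than `max (vd d m) 0`, and `IsMinusOneSpecial` that the system is a sum of multiples of disjoint
(-1)-curves, one of them with multiplicity at least two, and a residual system of positive virtual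
dimension which does not meet these curves.
-/

namespace Pool.Agent.Lib.MP_6b2d39_ag.Kept.HHFinite

open Pool.Agent.Lib.MP_6b2d39_agCr

/-- For all degrees and multiplicities, special is equivalent to (-1)-special for general base
points, unless Cremona reduction leads from `(d, m)` to a reduced special system `(e, n)`, with
`n i ≤ m i` for all `i`, such that for every `M ≥ 1` such that at most three of the `n i` are larger
than `M` the degree `e` is less than `27 M ^ 2 + 6 M` and the number `∑ (n i + 1).choose 2` of
conditions is less than `(27 M ^ 2 + 6 M + 2).choose 2`. -/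
theorem result (h : ℕ) (hh : 3 ≤ h) (d : ℕ) (m : Fin h → ℕ) :
    General (fun P => IsSpecial d m P ↔ IsMinusOneSpecial d m P) ∨
      ∃ (e : ℕ) (n : Fin h → ℕ), Relation.ReflTransGen CremonaStep (d, m) (e, n) ∧
        (∀ i, n i ≤ m i) ∧ Reduced e n ∧ General (fun P => IsSpecial e n P) ∧
        ∀ M : ℕ, 1 ≤ M → (Finset.univ.filter (fun i => M < n i)).card ≤ 3 →
          e < 27 * M ^ 2 + 6 * M ∧
            ∑ i, (n i + 1).choose 2 < (27 * M ^ 2 + 6 * M + 2).choose 2 :=
  Pool.Agent.Lib.MP_6b2d39_agWin.hh_finite_strong hh d m

end Pool.Agent.Lib.MP_6b2d39_ag.Kept.HHFinite
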