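import Pool.Agent.Lib.MP_6b2d39_ag.Hom.Final

/-!
Homogeneous linear systems of plane curves through general fat points.  `fatSystem d m p` is the
space of polynomials in two variables of total degree at most `d` (equations of plane curves of
degree `d` in an affine chart) with multiplicity at least `m i` at the point `p i`.
-/

namespace Pool.Agent.Results.MP_6b2d39_ag.HomogeneousExponential

open Pool.Agent.Lib.MP_6b2d39_ag

/-- There is an absolute constant `N0` such that for all `n ≥ N0` and all `d`, `m`, with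
`e = exp (-n ^ (1 / 20))`: the system of plane curves of degree `d` with multiplicity at least `m`
at `n` general points has the expected dimension if `d ^ 2 < (1 - e) n m ^ 2`, or if
`n (m + 1) ^ 2 ≤ (1 - e) (d + 1) ^ 2`, or if `n (m + 1) ^ 2 + 1 ≤ exp (n ^ (1 / 20))` and either
`d ^ 2 < n m ^ 2` or `n (m + 1) ^ 2 < (d + 1) ^ 2`. -/
theorem result : ∃ N0 : ℕ, ∀ n d m : ℕ, N0 ≤ n →
    ((d : ℝ) ^ 2 < (1 - Real.exp (-((n : ℝ) ^ (1 / 20 : ℝ)))) * (n * (m : ℝ) ^ 2) ∨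
      (n : ℝ) * ((m : ℝ) + 1) ^ 2 ≤
        (1 - Real.exp (-((n : ℝ) ^ (1 / 20 : ℝ)))) * ((d : ℝ) + 1) ^ 2 ∨
      ((n : ℝ) * ((m : ℝ) + 1) ^ 2 + 1 ≤ Real.exp ((n : ℝ) ^ (1 / 20 : ℝ)) ∧
        (d ^ 2 < n * m ^ 2 ∨ n * (m + 1) ^ 2 < (d + 1) ^ 2))) →
    ∃ Φ : MvPolynomial (Fin n × Fin 2) ℂ, Φ ≠ 0 ∧ ∀ p : Fin n → Fin 2 → ℂ,
      MvPolynomial.eval (fun q => p q.1 q.2) Φ ≠ 0 →
        (Module.finrank ℂ (fatSystem d (fun _ : Fin n => m) p) : ℤ) =
          max (((d + 2).choose 2 : ℤ) - n * ((m + 1).choose 2 : ℤ)) 0 :=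
  Hom.homogeneous_final

end Pool.Agent.Results.MP_6b2d39_ag.HomogeneousExponential
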