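import Pool.Agent.Lib.MP_6b2d39_agRef.AllR

/-!
The Harbourne-Hirschowitz conjecture for linear systems of plane curves with general base points.

`curves d m P` is the space of homogeneous polynomials of degree `d` in three variables with
multiplicity at least `m i` at the base point `P i` (a vector of `ℂ ^ 3`), `vd d m` its virtual
dimension `(d + 2).choose 2 - ∑ (m i + 1).choose 2`, `IsSpecial` means that the dimension is larger
than `max (vd d m) 0`, and `IsMinusOneSpecial` that the system is a sum of multiples of disjoint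
(-1)-curves, one of them with multiplicity at least two, and a residual system of positive virtual
dimension which does not meet these curves.
-/

namespace Pool.Agent.Lib.MP_6b2d39_ag.Kept.NineWindow

open Pool.Agent.Lib.MP_6b2d39_agCr

/-- For all degrees and multiplicities, special is equivalent to (-1)-special for general base
points, unless Cremona reduction leads from `(d, m)` to a reduced special system `(e, n)`, with
`n i ≤ m i` for all `i`, whose virtual dimension is in the window `(-15 μ ^ 2, 7 μ ^ 2)` for every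
`μ ≥ 0` such that at most nine of the `n i` are larger than `μ`, and in the window
`(-3 μ ^ 2, 6 μ ^ 2)` for every `μ ≥ 0` such that at most eight of the `n i` are larger than `μ`, or
exactly nine, with sum at most `3 e - μ`. (For `μ = 0` the windows are empty: at least ten of the
`n i` are positive.) Moreover, for the multiplicities `n₁ ≥ n₂ ≥ …` in decreasing order (`n (σ i)`
for `i = 0, 1, …`), `e = n₁ + 2 n₉` or `3 e < n₁ + … + n₉ + n₁₀ + n₁₂ + n₁₄ + …`. -/
theorem result (h : ℕ) (hh : 3 ≤ h) (d : ℕ) (m : Fin h → ℕ) :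
    General (fun P => IsSpecial d m P ↔ IsMinusOneSpecial d m P) ∨
      ∃ (e : ℕ) (n : Fin h → ℕ), Relation.ReflTransGen CremonaStep (d, m) (e, n) ∧
        (∀ i, n i ≤ m i) ∧ Reduced e n ∧ General (fun P => IsSpecial e n P) ∧
        (∀ μ : ℕ,
          (((Finset.univ.filter (fun i => μ < n i)).card ≤ 8 ∨
            ((Finset.univ.filter (fun i => μ < n i)).card = 9 ∧
              ∑ i ∈ Finset.univ.filter (fun i => μ < n i), n i + μ ≤ 3 * e)) →
            -(3 * (μ : ℤ) ^ 2) < vd e n ∧ vd e n < 6 * (μ : ℤ) ^ 2) ∧
          ((Finset.univ.filter (fun i => μ < n i)).card ≤ 9 →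
            -(15 * (μ : ℤ) ^ 2) < vd e n ∧ vd e n < 7 * (μ : ℤ) ^ 2)) ∧
        ∀ σ : Equiv.Perm (Fin h), Antitone (fun i => n (σ i)) →
          (∃ i j : Fin h, (i : ℕ) = 0 ∧ (j : ℕ) = 8 ∧ e = n (σ i) + 2 * n (σ j)) ∨
          3 * e < ∑ i : Fin h, (if (i : ℕ) < 9 ∨ Odd (i : ℕ) then n (σ i) else 0) :=
  Pool.Agent.Lib.MP_6b2d39_agRef.hh_allR hh d m

end Pool.Agent.Lib.MP_6b2d39_ag.Kept.NineWindow
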