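import Pool.Agent.Lib.MP_6b2d39_ag.Rc.Cases

/-!
Linear systems of plane curves through fifteen general points.

`curves d m P` is the space of homogeneous polynomials of degree `d` in three variables with
multiplicity at least `m i` at the base point `P i` (a vector of `ℂ ^ 3`), `vd d m` its virtual
dimension `(d + 2).choose 2 - ∑ (m i + 1).choose 2`, and `General` means: outside of the zero set
of some nonzero polynomial in the coordinates of the points.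
-/

namespace Pool.Agent.Results.MP_6b2d39_ag.RoundCone

open Pool.Agent.Lib.MP_6b2d39_agCr

/-- Let `d = p + q + s` and `k = d - (c 0 + c 1 + c 2 + c 3)`, let
`M = (p, q, s, c 0, c 0, c 1, c 1, c 2, c 2, c 3, c 3, n 0, n 1, n 2, n 3)`, let `v` be the virtual
dimension of `L_d(M)` and `E` the sign sum below. Then for fifteen general points and all
multiplicities `m`, with `m ≤ M` if `v ≥ 0` and with `m ≥ M` if `v ≤ 0`, the system `L_d(m)` has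
dimension `max (vd d m) 0`, in each of the following cases:
(a) `0 ≤ k ≤ 2`, `(n i) = (x, x, y, y)` and `p, q, s` are not all of the same parity;
(b) `0 ≤ k ≤ 2` and `(n i) = (x, x + 1, y, y + 1)`;
(c) `0 ≤ k ≤ 2` and `|E| ≤ 4 |v|`;
(d) `k` is any integer and `4 v + |E| < 8 + 4 k - 4 k ^ 2`.
In (b) and (c), if `k = 2` and (`|v| ≤ 1` or `|E| = 4 |v|`), then the numbers `p + 2`, `q + 2`,
`s + 2`, `c j + 2` are assumed to have no common divisor larger than one. -/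
theorem result (p q s : ℕ) (c n : Fin 4 → ℕ) (k : ℤ)
    (hk : ((p + q + s : ℕ) : ℤ) = ∑ j, (c j : ℤ) + k)
    (M : Fin 15 → ℕ)
    (hM : M = ![p, q, s, c 0, c 0, c 1, c 1, c 2, c 2, c 3, c 3, n 0, n 1, n 2, n 3])
    (v E : ℤ) (hv : v = vd (p + q + s) M)
    (hE : E = (-1) ^ n 0 * (2 * n 0 + 1) + (-1) ^ (q + s + n 1) * (2 * n 1 + 1) +
      (-1) ^ (p + s + n 2) * (2 * n 2 + 1) + (-1) ^ (p + q + n 3) * (2 * n 3 + 1))
    (hn : (0 ≤ k ∧ k ≤ 2 ∧ n 0 = n 1 ∧ n 2 = n 3 ∧ ¬ (Even (p + q) ∧ Even (q + s))) ∨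
      (0 ≤ k ∧ k ≤ 2 ∧ ((n 1 = n 0 + 1 ∧ n 3 = n 2 + 1) ∨ |E| ≤ 4 * |v|) ∧
        (k = 2 → |v| ≤ 1 ∨ |E| = 4 * |v| →
          ∀ g : ℕ, g ∣ p + 2 → g ∣ q + 2 → g ∣ s + 2 → (∀ j, g ∣ c j + 2) → g = 1)) ∨
      4 * v + |E| < 8 + 4 * k - 4 * k ^ 2)
    (m : Fin 15 → ℕ) (hm : (0 ≤ v ∧ ∀ i, m i ≤ M i) ∨ (v ≤ 0 ∧ ∀ i, M i ≤ m i)) :
    General (fun P => (Module.finrank ℂ (curves (p + q + s) m P) : ℤ) =
      max (vd (p + q + s) m) 0) := by
  have hM' : M = Pool.Agent.Lib.MP_6b2d39_ag.Rc.mm p q s c n := hM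
  subst hM'
  have hm' : Pool.Agent.Lib.MP_6b2d39_ag.Rc.Dom (p + q + s)
      (Pool.Agent.Lib.MP_6b2d39_ag.Rc.mm p q s c n) m := by
    rw [hv] at hm
    exact hm
  have hE' : E = Pool.Agent.Lib.MP_6b2d39_ag.Rc.Es p q s n := hE
  rw [hv, hE'] at hn
  have hnat : 0 ≤ k → k ≤ 2 → ∃ κ : ℕ, k = κ ∧ κ ≤ 2 ∧ p + q + s = ∑ j, c j + κ := by
    intro h0 h2
    obtain ⟨κ, rfl⟩ := Int.eq_ofNat_of_zero_le h0
    exact ⟨κ, rfl, by exact_mod_cast h2, by exact_mod_cast hk⟩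
  rcases hn with ⟨h0, hk2, e1, e2, e3⟩ | ⟨h0, hk2, h1, h2⟩ | h1
  · obtain ⟨κ, -, h4, h5⟩ := hnat h0 hk2
    exact Pool.Agent.Lib.MP_6b2d39_ag.Rc.round_cases p q s c n h5 h4 (Or.inl ⟨e1, e2, e3⟩) m hm'
  · obtain ⟨κ, h3, h4, h5⟩ := hnat h0 hk2
    refine Pool.Agent.Lib.MP_6b2d39_ag.Rc.round_cases p q s c n h5 h4
      (Or.inr ⟨h1, fun h6 => h2 ?_⟩) m hm'
    rw [h3, h6]
    rfl
  · exact Pool.Agent.Lib.MP_6b2d39_ag.Rc.round_dom_empty p q s c n hk h1 m hm'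

end Pool.Agent.Results.MP_6b2d39_ag.RoundCone
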