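import Pool.Agent.Lib.MP_6b2d39_agHw.Fin

/-!
The Harbourne-Hirschowitz conjecture for linear systems of plane curves with general base points.

`curves d m P` is the space of homogeneous polynomials of degree `d` in three variables with
multiplicity at least `m i` at the base point `P i` (a vector of `ℂ ^ 3`), `vd d m` its virtual
dimension `(d + 2).choose 2 - ∑ (m i + 1).choose 2`, `IsSpecial` means that the dimension is larger
than `max (vd d m) 0`, and `IsMinusOneSpecial` that the system is a sum of multiples of disjoint
(-1)-curves, one of them with multiplicity at least two, and a residual system of positive virtual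
dimension which does not meet these curves.
-/

namespace Pool.Agent.Results.MP_6b2d39_ag.TenFinite

open Pool.Agent.Lib.MP_6b2d39_agCr

/-- The bound for the ninth largest multiplicity in terms of the tenth. -/
def B (M : ℕ) : ℕ := (9 * M ^ 2 + 2 * M) * (72 * M ^ 2 + 94 * M + 29)

/-- For all degrees and multiplicities, special is equivalent to (-1)-special for general base
points, unless Cremona reduction leads from `(d, m)` to a reduced special system `(e, n)`, with
`n i ≤ m i` for all `i`, such that for every `M ≥ 1`: if all `n i` are at most `M` then `e` is less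
than `E = 2 (M + 1) a - 1` for every `a` with `a ^ 2 ≥ 9 M - 1` (so `E` is about `6 M ^ (3 / 2)`);
if at most three of the `n i` are larger than `M` then `e` is less than `E = 27 M ^ 2 + 6 M`; if at
most eight are, then `e` is less than `E = 36 M ^ 2 + 60 M + 27`; if at most nine are, then at most
eight are larger than `B M` and `e` is less than `E = 36 (B M) ^ 2 + 60 B M + 27`; in each case the
number `∑ (n i + 1).choose 2` of conditions is less than `(E + 2).choose 2`. -/
theorem result (h : ℕ) (hh : 3 ≤ h) (d : ℕ) (m : Fin h → ℕ) :
    General (fun P => IsSpecial d m P ↔ IsMinusOneSpecial d m P) ∨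
      ∃ (e : ℕ) (n : Fin h → ℕ), Relation.ReflTransGen CremonaStep (d, m) (e, n) ∧
        (∀ i, n i ≤ m i) ∧ Reduced e n ∧ General (fun P => IsSpecial e n P) ∧
        ∀ M : ℕ, 1 ≤ M →
          ((∀ i, n i ≤ M) → ∀ a : ℕ, 9 * M ≤ a ^ 2 + 1 → e + 1 < 2 * (M + 1) * a ∧
            ∑ i, (n i + 1).choose 2 < (2 * (M + 1) * a + 1).choose 2) ∧
          ((Finset.univ.filter (fun i => M < n i)).card ≤ 3 → e < 27 * M ^ 2 + 6 * M ∧
            ∑ i, (n i + 1).choose 2 < (27 * M ^ 2 + 6 * M + 2).choose 2) ∧
          ((Finset.univ.filter (fun i => M < n i)).card ≤ 8 → e < 36 * M ^ 2 + 60 * M + 27 ∧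
            ∑ i, (n i + 1).choose 2 < (36 * M ^ 2 + 60 * M + 29).choose 2) ∧
          ((Finset.univ.filter (fun i => M < n i)).card ≤ 9 →
            (Finset.univ.filter (fun i => B M < n i)).card ≤ 8 ∧
            e < 36 * B M ^ 2 + 60 * B M + 27 ∧
            ∑ i, (n i + 1).choose 2 < (36 * B M ^ 2 + 60 * B M + 29).choose 2) :=
  Pool.Agent.Lib.MP_6b2d39_agHw.hh_finite_ten' hh d m

end Pool.Agent.Results.MP_6b2d39_ag.TenFinite
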