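import Pool.Agent.Lib.MP_6b2d39_ag.NegSharp
import Pool.Agent.Lib.MP_6b2d39_ag.General

/-!
Linear systems of plane curves through general fat points.  `fatSystem d m p` is the space of
polynomials in two variables of total degree at most `d` (equations of plane curves of degree `d` in
an affine chart) with multiplicity at least `m i` at the point `p i`.
-/

namespace Pool.Agent.Lib.MP_6b2d39_ag.Kept.WindowTheorem

open Pool.Agent.Lib.MP_6b2d39_ag

/-- Let `μ ≥ 1` and suppose that every multiplicity `m i > μ` is supported by smaller ones: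
the sum of `(m j + 1).choose 2` over the `j` with `m j < m i` is at least
`(2 * m i).choose 2` in (a) and `(2 * m i).choose 2 + μ.choose 2` in (b) (there is no condition when
`μ` is the largest multiplicity).  Let `v = (d + 2).choose 2 - ∑ (m i + 1).choose 2`.  For general
points `p i`:
(a) if `v ≥ (μ - 1) ^ 2`, then the system has dimension exactly `v`;
(b) the dimension is at most `max (v + μ.choose 2) 0` (in particular the system is empty if
`v ≤ - μ.choose 2`). -/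
theorem result (μ : ℕ) (hμ : 1 ≤ μ) (d h : ℕ) (m : Fin h → ℕ) :
    ((∀ i, μ < m i → (2 * m i).choose 2 ≤ ∑ j with m j < m i, (m j + 1).choose 2) →
      ((μ : ℤ) - 1) ^ 2 ≤ ((d + 2).choose 2 : ℤ) - ∑ i, ((m i + 1).choose 2 : ℤ) →
      ∃ Φ : MvPolynomial (Fin h × Fin 2) ℂ, Φ ≠ 0 ∧ ∀ p : Fin h → Fin 2 → ℂ,
        MvPolynomial.eval (fun q => p q.1 q.2) Φ ≠ 0 →
          (Module.finrank ℂ (fatSystem d m p) : ℤ) =
            ((d + 2).choose 2 : ℤ) - ∑ i, ((m i + 1).choose 2 : ℤ)) ∧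
    ((∀ i, μ < m i →
        (2 * m i).choose 2 + μ.choose 2 ≤ ∑ j with m j < m i, (m j + 1).choose 2) →
      ∃ Φ : MvPolynomial (Fin h × Fin 2) ℂ, Φ ≠ 0 ∧ ∀ p : Fin h → Fin 2 → ℂ,
        MvPolynomial.eval (fun q => p q.1 q.2) Φ ≠ 0 →
          (Module.finrank ℂ (fatSystem d m p) : ℤ) ≤
            max (((d + 2).choose 2 : ℤ) - ∑ i, ((m i + 1).choose 2 : ℤ) + (μ.choose 2 : ℤ)) 0) := by
  have h3 : (∑ i, ((m i + 1).choose 2 : ℤ)) = ((∑ i, (m i + 1).choose 2 : ℕ) : ℤ) := by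
    push_cast
    rfl
  constructor
  · intro hsup hv
    rw [h3] at hv ⊢
    obtain ⟨ν, rfl⟩ : ∃ ν, μ = ν + 1 := ⟨μ - 1, by omega⟩
    have h4 : ((((ν + 1 : ℕ) : ℤ)) - 1) ^ 2 = ((ν ^ 2 : ℕ) : ℤ) := by
      push_cast
      ring
    rw [h4] at hv
    have h5 : ν + 1 - 1 = ν := rfl
    obtain ⟨u, hu⟩ : ∃ u, ∑ i, (m i + 1).choose 2 + u = (d + 2).choose 2 :=
      ⟨(d + 2).choose 2 - ∑ i, (m i + 1).choose 2, by omega⟩
    obtain ⟨Φ, hΦ, hΦ2⟩ := general_nonempty_side m u hu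
        (good_nonempty_side d (ν + 1) hμ m hsup u hu (by rw [h5]; omega))
    refine ⟨Φ, hΦ, ?_⟩
    intro p hp
    have h1 := hΦ2 p hp
    rw [h3] at h1
    rw [h1]
    omega
  · intro hsup
    obtain ⟨u, hu⟩ : ∃ u, u = (d + 2).choose 2 + μ.choose 2 - ∑ i, (m i + 1).choose 2 := ⟨_, rfl⟩
    obtain ⟨Φ, hΦ, hΦ2⟩ := transfer_upper m (good_empty_sharp d μ hμ m hsup u (by omega))
    refine ⟨Φ, hΦ, ?_⟩
    intro p hp
    have h1 := hΦ2 p hp
    rw [h3]
    omega

end Pool.Agent.Lib.MP_6b2d39_ag.Kept.WindowTheorem
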